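import Pool.Agent.Helper28.UI.UniStm
import Pool.Graph.R_pool_sql_team_seeded_63374d34.N67.NS.LEAV
import Pool.Graph.R_pool_sql_team_seeded_63374d34.N46.NS.Data

/-!
# Every countable group embeds in `E_3(A)` for an algebra `A` with six generators
-/

set_option autoImplicit false
set_option linter.unusedSimpArgs false
set_option linter.unusedSectionVars false
set_option linter.unusedVariables false

namespace Pool.Agent.Helper95.UN

open Pool.Agent.N44.NS (E3 Leav el)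
open Pool.Agent.N46.NS (w01 w12)

/-! ### The corner embedding -/

section corner

variable {A : Type} [Ring A] {x1 x2 y1 y2 : A} {Γ : Type} [Group Γ]

/-- `L` on the corner `x2 x1 A y1 y2` -/
def cc (hL : Leav x1 x2 y1 y2) (L : Γ →* A) : Γ →* A where
  toFun γ := x2 * (x1 * (L γ * (y1 * y2))) + (1 - x2 * (x1 * (y1 * y2)))
  map_one' := by
    rw [map_one, one_mul]
    abel
  map_mul' γ δ := by
    have a1 := hL.r11
    have a2 := hL.r22
    have b1 : ∀ z, y1 * (x1 * z) = z := fun z => by rw [← mul_assoc, a1, one_mul]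
    have b2 : ∀ z, y2 * (x2 * z) = z := fun z => by rw [← mul_assoc, a2, one_mul]
    rw [map_mul]
    simp only [mul_add, add_mul, mul_sub, sub_mul, mul_assoc, b1, b2, mul_one, one_mul]
    abel

theorem cc_apply (hL : Leav x1 x2 y1 y2) (L : Γ →* A) (γ : Γ) :
    cc hL L γ = x2 * (x1 * (L γ * (y1 * y2))) + (1 - x2 * (x1 * (y1 * y2))) := rfl

theorem cc_inj (hL : Leav x1 x2 y1 y2) (L : Γ →* A) (hi : Function.Injective L) :
    Function.Injective (cc hL L) := by
  intro γ δ h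
  apply hi
  have a1 := hL.r11
  have a2 := hL.r22
  have b1 : ∀ z, y1 * (x1 * z) = z := fun z => by rw [← mul_assoc, a1, one_mul]
  have b2 : ∀ z, y2 * (x2 * z) = z := fun z => by rw [← mul_assoc, a2, one_mul]
  have h1 : ∀ γ, y1 * (y2 * (cc hL L γ * (x2 * x1))) = L γ := by
    intro γ
    rw [cc_apply]
    simp only [mul_add, add_mul, mul_sub, sub_mul, mul_assoc, b1, b2, mul_one, one_mul, a1]
    abel
  rw [← h1 γ, ← h1 δ, h]

/-- the commutator -/
theorem cc_comm (hL : Leav x1 x2 y1 y2) (L : Γ →* A) (h1 : ∀ γ, L γ * x1 = x1 * L γ)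
    (h2 : ∀ γ, L γ * x2 = x2 * L γ) (γ : Γ) :
    (x1 * y1 + x2 * (L γ * y2)) * (x1 * (y1 * y1) + x2 * (x1 * (y2 * y1)) + x2 * (x2 * y2)) *
      (x1 * y1 + x2 * (L γ⁻¹ * y2)) * (x1 * (x1 * y1) + x1 * (x2 * (y1 * y2)) + x2 * (y2 * y2)) =
      cc hL L γ := by
  have a1 := hL.r11
  have a2 := hL.r22
  have a3 := hL.r12
  have a4 := hL.r21
  have b1 : ∀ z, y1 * (x1 * z) = z := fun z => by rw [← mul_assoc, a1, one_mul]
  have b2 : ∀ z, y2 * (x2 * z) = z := fun z => by rw [← mul_assoc, a2, one_mul]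
  have b3 : ∀ z, y1 * (x2 * z) = 0 := fun z => by rw [← mul_assoc, a3, zero_mul]
  have b4 : ∀ z, y2 * (x1 * z) = 0 := fun z => by rw [← mul_assoc, a4, zero_mul]
  have c1 : ∀ z, L γ * (x1 * z) = x1 * (L γ * z) := fun z => by
    rw [← mul_assoc, h1, mul_assoc]
  have c2 : ∀ z, L γ * (x2 * z) = x2 * (L γ * z) := fun z => by
    rw [← mul_assoc, h2, mul_assoc]
  have c3 : ∀ z, L γ * (L γ⁻¹ * z) = z := fun z => by
    rw [← mul_assoc, ← map_mul, mul_inv_cancel, map_one, one_mul]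
  rw [cc_apply]
  simp only [mul_add, add_mul, mul_assoc, a1, a2, a3, a4, b1, b2, b3, b4, c1, c2, c3, mul_zero,
    zero_mul, mul_one, one_mul, add_zero, zero_add]
  have e : (1 : A) = x1 * y1 + (x2 * (x1 * (y1 * y2)) + x2 * (x2 * (y2 * y2))) := by
    calc (1 : A) = x1 * y1 + x2 * ((x1 * y1 + x2 * y2) * y2) := by
          rw [hL.rs, one_mul, hL.rs]
      _ = _ := by noncomm_ring
  rw [e]
  abel

theorem diag3 (a b c a' b' c' : A) : Matrix.diagonal ![a, b, c] * Matrix.diagonal ![a', b', c'] =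
    Matrix.diagonal ![a * a', b * b', c * c'] := by
  rw [Matrix.diagonal_mul_diagonal]
  congr 1
  funext i
  fin_cases i <;> rfl

theorem w02 (v w : A) (h1 : v * w = 1) (h2 : w * v = 1) :
    ∃ g ∈ E3 A, g.val = Matrix.diagonal ![v, 1, w] := by
  obtain ⟨g1, hg1, e1⟩ := w01 v w h1 h2
  obtain ⟨g2, hg2, e2⟩ := w12 v w h1 h2
  refine ⟨g1 * g2, mul_mem hg1 hg2, ?_⟩
  rw [Units.val_mul, e1, e2, diag3, mul_one, h2, one_mul]

/-- the diagonal embedding of the corner -/
theorem exists_hom (hL : Leav x1 x2 y1 y2) (L : Γ →* A) (h1 : ∀ γ, L γ * x1 = x1 * L γ)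
    (h2 : ∀ γ, L γ * x2 = x2 * L γ) (hi : Function.Injective L) :
    ∃ f : Γ →* E3 A, Function.Injective f := by
  have a1 := hL.r11
  have a2 := hL.r22
  have a3 := hL.r12
  have a4 := hL.r21
  have b1 : ∀ z, y1 * (x1 * z) = z := fun z => by rw [← mul_assoc, a1, one_mul]
  have b2 : ∀ z, y2 * (x2 * z) = z := fun z => by rw [← mul_assoc, a2, one_mul]
  have b3 : ∀ z, y1 * (x2 * z) = 0 := fun z => by rw [← mul_assoc, a3, zero_mul]
  have b4 : ∀ z, y2 * (x1 * z) = 0 := fun z => by rw [← mul_assoc, a4, zero_mul]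
  -- the unit `u`
  obtain ⟨u, hu⟩ : ∃ u : A, u = x1 * (y1 * y1) + x2 * (x1 * (y2 * y1)) + x2 * (x2 * y2) := ⟨_, rfl⟩
  obtain ⟨ui, hui⟩ : ∃ ui : A, ui = x1 * (x1 * y1) + x1 * (x2 * (y1 * y2)) + x2 * (y2 * y2) :=
    ⟨_, rfl⟩
  have c1 : u * ui = 1 := by
    rw [hu, hui]
    simp only [mul_add, add_mul, mul_assoc, a1, a2, a3, a4, b1, b2, b3, b4, mul_zero, zero_mul,
      mul_one, one_mul, add_zero, zero_add]
    calc _ = x1 * y1 + x2 * ((x1 * y1 + x2 * y2) * y2) := by noncomm_ring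
      _ = 1 := by rw [hL.rs, one_mul, hL.rs]
  have c2 : ui * u = 1 := by
    rw [hu, hui]
    simp only [mul_add, add_mul, mul_assoc, a1, a2, a3, a4, b1, b2, b3, b4, mul_zero, zero_mul,
      mul_one, one_mul, add_zero, zero_add]
    calc _ = x1 * ((x1 * y1 + x2 * y2) * y1) + x2 * y2 := by noncomm_ring
      _ = 1 := by rw [hL.rs, one_mul, hL.rs]
  have hs : ∀ γ : Γ, (x1 * y1 + x2 * (L γ * y2)) * (x1 * y1 + x2 * (L γ⁻¹ * y2)) = 1 := by
    intro γ
    have c3 : ∀ z, L γ * (L γ⁻¹ * z) = z := fun z => by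
      rw [← mul_assoc, ← map_mul, mul_inv_cancel, map_one, one_mul]
    simp only [mul_add, add_mul, mul_assoc, a1, a2, a3, a4, b1, b2, b3, b4, c3, mul_zero, zero_mul,
      mul_one, one_mul, add_zero, zero_add]
    exact hL.rs
  have hs' : ∀ γ : Γ, (x1 * y1 + x2 * (L γ⁻¹ * y2)) * (x1 * y1 + x2 * (L γ * y2)) = 1 := by
    intro γ
    have := hs γ⁻¹
    rwa [inv_inv] at this
  have hcu : ∀ γ, cc hL L γ * cc hL L γ⁻¹ = 1 := fun γ => by
    rw [← map_mul, mul_inv_cancel, map_one]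
  have hcu' : ∀ γ, cc hL L γ⁻¹ * cc hL L γ = 1 := fun γ => by
    rw [← map_mul, inv_mul_cancel, map_one]
  have hone : (Matrix.diagonal ![(1 : A), 1, 1] : Matrix (Fin 3) (Fin 3) A) = 1 := by
    rw [← Matrix.diagonal_one]
    congr 1
    funext i
    fin_cases i <;> rfl
  have hmem : ∀ γ, ∃ g ∈ E3 A, g.val = Matrix.diagonal ![cc hL L γ, 1, 1] := by
    intro γ
    obtain ⟨g1, hg1, e1⟩ := w01 _ _ (hs γ) (hs' γ)
    obtain ⟨g2, hg2, e2⟩ := w02 _ _ c1 c2
    obtain ⟨g3, hg3, e3⟩ := w01 _ _ (hs' γ) (hs γ)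
    obtain ⟨g4, hg4, e4⟩ := w02 _ _ c2 c1
    refine ⟨g1 * g2 * g3 * g4, mul_mem (mul_mem (mul_mem hg1 hg2) hg3) hg4, ?_⟩
    rw [Units.val_mul, Units.val_mul, Units.val_mul, e1, e2, e3, e4, diag3, diag3, diag3,
      mul_one, mul_one, one_mul, mul_one, hs' γ, c2, hu, hui, cc_comm hL L h1 h2 γ]
  choose g hg hgv using hmem
  refine ⟨{ toFun := fun γ => ⟨g γ, hg γ⟩
            map_one' := ?_
            map_mul' := ?_ }, ?_⟩
  · apply Subtype.ext
    apply Units.ext
    show (g 1).val = 1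
    rw [hgv, map_one, hone]
  · intro γ δ
    apply Subtype.ext
    apply Units.ext
    show (g (γ * δ)).val = (g γ).val * (g δ).val
    rw [hgv, hgv, hgv, diag3, map_mul, mul_one]
  · intro γ δ h
    have h3 : g γ = g δ := congrArg Subtype.val h
    have h4 : (g γ).val = (g δ).val := congrArg Units.val h3
    rw [hgv, hgv] at h4
    have h5 := congrFun (Matrix.diagonal_injective h4) 0
    exact cc_inj hL L hi h5

end corner

/-! ### The operators -/

section ops

variable (K : Type) [Field K] (Γ : Type) [Group Γ]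

/-- the module -/
abbrev V : Type := ℕ → Γ → K

/-- `f ↦ (n ↦ f (2 n))` -/
def Y0 : Module.End K (V K Γ) where
  toFun f := fun n => f (2 * n)
  map_add' _ _ := rfl
  map_smul' _ _ := rfl

/-- `f ↦ (n ↦ f (2 n + 1))` -/
def Y1 : Module.End K (V K Γ) where
  toFun f := fun n => f (2 * n + 1)
  map_add' _ _ := rfl
  map_smul' _ _ := rfl

/-- `f` on the even numbers -/
def X0 : Module.End K (V K Γ) where
  toFun f := fun n => if n % 2 = 0 then f (n / 2) else 0
  map_add' f g := by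
    funext n
    by_cases h : n % 2 = 0 <;> simp [h]
  map_smul' c f := by
    funext n
    by_cases h : n % 2 = 0 <;> simp [h]

/-- `f` on the odd numbers -/
def X1 : Module.End K (V K Γ) where
  toFun f := fun n => if n % 2 = 1 then f (n / 2) else 0
  map_add' f g := by
    funext n
    by_cases h : n % 2 = 1 <;> simp [h]
  map_smul' c f := by
    funext n
    by_cases h : n % 2 = 1 <;> simp [h]

variable {Γ}

/-- translation by `δ n` in the fibre over `n` -/
def DD (δ : ℕ → Γ) : Module.End K (V K Γ) where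
  toFun f := fun n h => f n ((δ n)⁻¹ * h)
  map_add' _ _ := rfl
  map_smul' _ _ := rfl

theorem leav : Leav (X0 K Γ) (X1 K Γ) (Y0 K Γ) (Y1 K Γ) where
  r11 := by
    apply LinearMap.ext
    intro f
    funext n
    have h2 : (2 * n) / 2 = n := by omega
    simp [Y0, X0, h2]
  r22 := by
    apply LinearMap.ext
    intro f
    funext n
    have h : (2 * n + 1) % 2 = 1 := by omega
    have h2 : (2 * n + 1) / 2 = n := by omega
    simp [Y1, X1, h, h2]
  r12 := by
    apply LinearMap.ext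
    intro f
    funext n
    simp [Y0, X1]
  r21 := by
    apply LinearMap.ext
    intro f
    funext n
    have h : (2 * n + 1) % 2 ≠ 0 := by omega
    simp [Y1, X0]
  rs := by
    apply LinearMap.ext
    intro f
    funext n
    rcases Nat.mod_two_eq_zero_or_one n with h | h
    · have h1 : 2 * (n / 2) = n := by omega
      simp [X0, X1, Y0, Y1, h, h1]
    · have h1 : 2 * (n / 2) + 1 = n := by omega
      simp [X0, X1, Y0, Y1, h, h1]

theorem DD_mul (δ ε : ℕ → Γ) : DD K δ * DD K ε = DD K (fun n => δ n * ε n) := by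
  apply LinearMap.ext
  intro f
  funext n h
  show f n ((ε n)⁻¹ * ((δ n)⁻¹ * h)) = f n ((δ n * ε n)⁻¹ * h)
  rw [mul_inv_rev, mul_assoc]

theorem DD_one : DD K (fun _ => (1 : Γ)) = 1 := by
  apply LinearMap.ext
  intro f
  funext n h
  show f n ((1 : Γ)⁻¹ * h) = f n h
  rw [inv_one, one_mul]

/-- the constant translations -/
def LL : Γ →* Module.End K (V K Γ) where
  toFun γ := DD K (fun _ => γ)
  map_one' := DD_one K
  map_mul' γ δ := (DD_mul K _ _).symm

theorem LL_inj : Function.Injective (LL K (Γ := Γ)) := by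
  classical
  intro γ δ h
  have h1 := congrFun (congrFun (congrArg (fun T : Module.End K (V K Γ) =>
    T (fun _ => Pi.single (1 : Γ) (1 : K))) h) 0) γ
  have h2 : (Pi.single (1 : Γ) (1 : K) : Γ → K) (γ⁻¹ * γ) =
      (Pi.single (1 : Γ) (1 : K) : Γ → K) (δ⁻¹ * γ) := h1
  rw [inv_mul_cancel, Pi.single_eq_same] at h2
  by_contra hne
  have h3 : δ⁻¹ * γ ≠ 1 := by
    intro h4
    apply hne
    rw [← mul_left_cancel_iff (a := δ⁻¹), h4, inv_mul_cancel]
  rw [Pi.single_eq_of_ne h3] at h2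
  exact one_ne_zero h2

theorem LL_X0 (γ : Γ) : LL K γ * X0 K Γ = X0 K Γ * LL K γ := by
  apply LinearMap.ext
  intro f
  funext n h
  show (if n % 2 = 0 then f (n / 2) else 0) (γ⁻¹ * h) =
    (if n % 2 = 0 then (fun h' => f (n / 2) (γ⁻¹ * h')) else 0) h
  by_cases hn : n % 2 = 0
  · rw [if_pos hn, if_pos hn]
  · rw [if_neg hn, if_neg hn]
    rfl

theorem LL_X1 (γ : Γ) : LL K γ * X1 K Γ = X1 K Γ * LL K γ := by
  apply LinearMap.ext
  intro f
  funext n h
  show (if n % 2 = 1 then f (n / 2) else 0) (γ⁻¹ * h) =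
    (if n % 2 = 1 then (fun h' => f (n / 2) (γ⁻¹ * h')) else 0) h
  by_cases hn : n % 2 = 1
  · rw [if_pos hn, if_pos hn]
  · rw [if_neg hn, if_neg hn]
    rfl

theorem Y1_pow (k : ℕ) (f : V K Γ) (n : ℕ) :
    ((Y1 K Γ) ^ k) f n = f (2 ^ k * n + (2 ^ k - 1)) := by
  induction k generalizing f n with
  | zero => simp
  | succ k ih =>
    rw [pow_succ]
    show ((Y1 K Γ) ^ k) ((Y1 K Γ) f) n = _
    rw [ih]
    show f (2 * (2 ^ k * n + (2 ^ k - 1)) + 1) = _
    congr 1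
    have h1 : 1 ≤ 2 ^ k := Nat.one_le_two_pow
    have h2 : 2 ^ (k + 1) = 2 * 2 ^ k := by ring
    rw [h2]
    have h3 : 2 * (2 ^ k * n + (2 ^ k - 1)) + 1 = 2 * 2 ^ k * n + (2 * (2 ^ k - 1) + 1) := by ring
    rw [h3]
    congr 1
    omega

theorem X1_pow (k : ℕ) (f : V K Γ) (n : ℕ) :
    ((X1 K Γ) ^ k) f (2 ^ k * n + (2 ^ k - 1)) = f n := by
  have h := Y1_pow K k (((X1 K Γ) ^ k) f) n
  rw [← h]
  have h2 : (Y1 K Γ) ^ k * (X1 K Γ) ^ k = 1 := by
    clear h f n
    induction k with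
    | zero => simp
    | succ k ih =>
      rw [pow_succ, pow_succ', mul_assoc, ← mul_assoc (Y1 K Γ) (X1 K Γ), (leav K (Γ := Γ)).r22,
        one_mul, ih]
  have h3 := congrArg (fun T : Module.End K (V K Γ) => T f n) h2
  exact h3

/-- the constant translations are in the algebra -/
theorem LL_eq (δ : ℕ → Γ) (k : ℕ) :
    Y0 K Γ * ((Y1 K Γ) ^ k * (DD K (fun n => δ (padicValNat 2 (n + 1))) *
      ((X1 K Γ) ^ k * X0 K Γ))) = LL K (δ k) := by
  apply LinearMap.ext
  intro f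
  funext n
  show ((Y1 K Γ) ^ k) (DD K (fun n => δ (padicValNat 2 (n + 1)))
    (((X1 K Γ) ^ k) (X0 K Γ f))) (2 * n) = _
  rw [Y1_pow]
  funext h
  show (((X1 K Γ) ^ k) (X0 K Γ f)) (2 ^ k * (2 * n) + (2 ^ k - 1))
    ((δ (padicValNat 2 (2 ^ k * (2 * n) + (2 ^ k - 1) + 1)))⁻¹ * h) = f n ((δ k)⁻¹ * h)
  have hv : padicValNat 2 (2 ^ k * (2 * n) + (2 ^ k - 1) + 1) = k := by
    have h1 : 1 ≤ 2 ^ k := Nat.one_le_two_pow
    have h2 : 2 ^ k * (2 * n) + (2 ^ k - 1) + 1 = 2 ^ k * (2 * n + 1) := by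
      rw [mul_add, mul_one]
      omega
    have := Fact.mk Nat.prime_two
    rw [h2, padicValNat.mul (by positivity) (by omega), padicValNat.prime_pow,
      padicValNat.eq_zero_of_not_dvd (by omega), add_zero]
  rw [hv, X1_pow]
  have h3 : (X0 K Γ f) (2 * n) = f n := by
    show (if (2 * n) % 2 = 0 then f ((2 * n) / 2) else 0) = f n
    rw [if_pos (by omega)]
    congr 1
    omega
  rw [h3]

end ops

/-- **UNI** -/
theorem s_uni : Pool.Agent.Helper28.UI.S_UNI := by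
  intro Γ _ _
  obtain ⟨δ, hδ⟩ := exists_surjective_nat Γ
  let F : Type := ZMod 257
  have hF : Fact (Nat.Prime 257) := ⟨by norm_num⟩
  let D : Module.End F (V F Γ) := DD F (fun n => δ (padicValNat 2 (n + 1)))
  let D' : Module.End F (V F Γ) := DD F (fun n => (δ (padicValNat 2 (n + 1)))⁻¹)
  let gen : Fin 6 → Module.End F (V F Γ) := ![X0 F Γ, X1 F Γ, Y0 F Γ, Y1 F Γ, D, D']
  let A : Subalgebra F (Module.End F (V F Γ)) := Algebra.adjoin F (Set.range gen)
  have hg : ∀ i, gen i ∈ A := fun i => Algebra.subset_adjoin ⟨i, rfl⟩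
  have hLA : ∀ γ, LL F γ ∈ A := by
    intro γ
    obtain ⟨k, rfl⟩ := hδ γ
    rw [← LL_eq F δ k]
    exact mul_mem (hg 2) (mul_mem (pow_mem (hg 3) k) (mul_mem (hg 4)
      (mul_mem (pow_mem (hg 1) k) (hg 0))))
  let L : Γ →* A := (LL F (Γ := Γ)).codRestrict A hLA
  have hL : Leav (⟨gen 0, hg 0⟩ : A) ⟨gen 1, hg 1⟩ ⟨gen 2, hg 2⟩ ⟨gen 3, hg 3⟩ := {
    r11 := Subtype.ext (leav F (Γ := Γ)).r11
    r22 := Subtype.ext (leav F (Γ := Γ)).r22
    r12 := Subtype.ext (leav F (Γ := Γ)).r12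
    r21 := Subtype.ext (leav F (Γ := Γ)).r21
    rs := Subtype.ext (leav F (Γ := Γ)).rs }
  refine ⟨F, A, inferInstance, inferInstance, inferInstance, inferInstance, inferInstance,
    fun i => ⟨gen i, hg i⟩, ?_, hL, ?_, ?_⟩
  · show 256 ≤ Fintype.card (ZMod 257)
    rw [ZMod.card]
    norm_num
  · apply Subalgebra.map_injective (f := A.val) Subtype.val_injective
    rw [AlgHom.map_adjoin, ← Set.range_comp, Algebra.map_top, Subalgebra.range_val]
    rfl
  · refine exists_hom hL L (fun γ => Subtype.ext (LL_X0 F γ)) (fun γ => Subtype.ext (LL_X1 F γ)) ?_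
    intro γ γ' h
    exact LL_inj F (congrArg Subtype.val h)

end Pool.Agent.Helper95.UN
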